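import Pool.Agent.H49.VZ.Base

/-!
# The difference of a logarithmic form and its pull-back has bounded poles (row ETA of
`vz_modules`)
-/

open MvPolynomial
open Pool.Agent.H12.ZD (pmap)
open Pool.Agent.H18.HIT Pool.Agent.H18.HX Pool.Agent.H18.VZ

namespace Pool.Agent.H15.VZ

/-- the chain rule -/
theorem der_comp {N : ℕ} {k R : Type} [Field k] [CommRing R] [Algebra k R] (f : Po N k →ₐ[k] R)
    (D : Derivation k R R) (g : Po N k) : D (f g) = ∑ i, f (pderiv i g) * D (f (X i)) := by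
  classical
  induction g using MvPolynomial.induction_on with
  | C a =>
    rw [← MvPolynomial.algebraMap_eq, f.commutes, D.map_algebraMap]
    refine (Finset.sum_eq_zero fun i _ => ?_).symm
    rw [MvPolynomial.algebraMap_eq, pderiv_C, map_zero, zero_mul]
  | add p q hp hq =>
    rw [map_add, map_add, hp, hq, ← Finset.sum_add_distrib]
    refine Finset.sum_congr rfl fun i _ => ?_
    rw [map_add, map_add, add_mul]
  | mul_X p j hp =>
    rw [map_mul, D.leibniz, hp, smul_eq_mul, smul_eq_mul, Finset.mul_sum]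
    have h1 : ∀ i, f (pderiv i (p * X j)) * D (f (X i)) =
        (if i = j then f p * D (f (X i)) else 0) + f (X j) * (f (pderiv i p) * D (f (X i))) := by
      intro i
      rw [(pderiv i).leibniz, pderiv_X, smul_eq_mul, smul_eq_mul, map_add, map_mul, map_mul,
        add_mul]
      by_cases hij : i = j
      · subst hij
        rw [Pi.single_eq_same, map_one, mul_one, if_pos rfl]
        ring
      · rw [Pi.single_eq_of_ne (Ne.symm hij), map_zero, mul_zero, zero_mul, if_neg hij]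
        ring
    simp_rw [h1]
    rw [Finset.sum_add_distrib, Finset.sum_ite_eq' Finset.univ j, if_pos (Finset.mem_univ j)]

section

variable {N : ℕ} {k : Type} [Field k]

theorem dd_X (P : Po (N + 1) k) (l j : Fin N) :
    dd P l (X j.succ) = if l = j then pderiv 0 P else 0 := by
  unfold dd
  simp only [Derivation.coe_sub, Derivation.coe_smul, Pi.sub_apply, Pi.smul_apply, smul_eq_mul]
  rw [pderiv_X_of_ne (Fin.succ_ne_zero j), mul_zero, sub_zero]
  split_ifs with h
  · rw [h, pderiv_X_self, mul_one]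
  · rw [pderiv_X_of_ne (fun h1 => h (Fin.succ_injective _ h1).symm), mul_zero]

theorem dd_up (P : Po (N + 1) k) (l : Fin N) (g : Po N k) :
    dd P l (up g) = pderiv 0 P * up (pderiv l g) := by
  have h1 := der_comp (rename Fin.succ : Po N k →ₐ[k] Po (N + 1) k) (dd P l) g
  simp_rw [rename_X] at h1
  show dd P l (rename Fin.succ g) = _
  rw [h1, Finset.sum_eq_single l]
  · rw [dd_X, if_pos rfl, mul_comm]
    rfl
  · intro i _ hi
    rw [dd_X, if_neg (Ne.symm hi), mul_zero]
  · intro h0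
    exact absurd (Finset.mem_univ _) h0

theorem dd_aeval_up (P : Po (N + 1) k) (F : Tup (N + 1) k) (l : Fin N) (g : Po N k) :
    dd P l (aeval F (up g)) = ∑ i, aeval F (up (pderiv i g)) * dd P l (F i.succ) := by
  have h1 := der_comp ((aeval F : Po (N + 1) k →ₐ[k] Po (N + 1) k).comp
    (rename Fin.succ : Po N k →ₐ[k] Po (N + 1) k)) (dd P l) g
  simp only [AlgHom.comp_apply, rename_X, aeval_X] at h1
  exact h1

variable {κ : Type} [Field κ] [Algebra k κ]

theorem dvd_X_pow {y : PowerSeries κ} (hy : y ≠ 0) : ∃ n : ℕ, y ∣ PowerSeries.X ^ n := by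
  obtain ⟨n, hn⟩ := IsDiscreteValuationRing.associated_pow_irreducible hy
    (PowerSeries.X_prime (R := κ)).irreducible
  exact ⟨n, hn.dvd⟩

/-- the final step -/
theorem fin_step {R : Type} [CommRing R] [Algebra k R] (f : Po (N + 1) k →ₐ[k] R)
    (P : Po (N + 1) k)
    (F : Tup (N + 1) k) (a : Fin N → Po (N + 1) k) (w g : Po (N + 1) k) (M : ℕ) (Z : R)
    (h1 : ∀ i, f w ∣ Z * f (pderiv 0 P * a i))
    (h2 : ∀ i, f (aeval F w) ∣ Z * f (aeval F (pderiv 0 P * a i))) (hZ : Z ∣ f g ^ M)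
    (j : Fin N) :
    f (We P F w) ∣ f (pderiv 0 P * aeval F (pderiv 0 P) * g ^ M * Ye P F a w j) := by
  unfold We Ye
  simp only [map_mul, map_sub, map_pow, map_sum] at h1 h2 ⊢
  rw [mul_sub]
  refine dvd_sub ?_ ?_
  · rw [Finset.mul_sum, Finset.mul_sum]
    refine Finset.dvd_sum fun i _ => ?_
    have h3 : f (aeval F w) ∣ f g ^ M * (f (aeval F (pderiv 0 P)) * f (aeval F (a i))) :=
      (h2 i).trans (mul_dvd_mul_right hZ _)
    have h4 := mul_dvd_mul (mul_dvd_mul h3 (dvd_refl (f w))) (dvd_refl (f (pderiv 0 P)))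
    refine (h4.mul_right (f (dd P j (F i.succ)))).trans (dvd_of_eq ?_)
    ring
  · have h3 : f w ∣ f g ^ M * (f (pderiv 0 P) * f (a j)) :=
      (h1 j).trans (mul_dvd_mul_right hZ _)
    have h4 := mul_dvd_mul (mul_dvd_mul (dvd_refl (f (aeval F w))) h3)
      (dvd_refl (f (pderiv 0 P)))
    refine (h4.mul_right (f (aeval F (pderiv 0 P)))).trans (dvd_of_eq ?_)
    ring

/-- the residues cancel -/
theorem res_step {R : Type} [CommRing R] [IsDomain R] {ι : Type} (s : Finset ι)
    {W W' p η η' α h₀ : R} {αi hi d : ι → R} (hη : η ≠ 0) (hη' : η' ≠ 0)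
    (R1 : W * η ∣ α * η - W * h₀) (R2 : ∀ i, W' * η' ∣ αi i * η' - W' * hi i)
    (L : η' * η ∣ (∑ i ∈ s, hi i * d i) * η - η' * (p * h₀)) (hp : IsUnit p) :
    W' * W * p ∣ W * ∑ i ∈ s, αi i * d i - α * W' * p := by
  obtain ⟨x, hx⟩ := R1
  choose y hy using R2
  obtain ⟨z, hz⟩ := L
  rw [hp.mul_right_dvd]
  refine ⟨z + ∑ i ∈ s, y i * d i - x * p, ?_⟩
  have h0 : η * η' ≠ 0 := mul_ne_zero hη hη'
  apply mul_right_cancel₀ h0
  have e1 : (∑ i ∈ s, αi i * d i) * η' = W' * (∑ i ∈ s, hi i * d i) +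
      W' * η' * ∑ i ∈ s, y i * d i := by
    rw [Finset.sum_mul, Finset.mul_sum, Finset.mul_sum, ← Finset.sum_add_distrib]
    refine Finset.sum_congr rfl fun i _ => ?_
    linear_combination d i * hy i
  linear_combination W * η * e1 - W' * p * η' * hx + W * W' * hz

theorem a1_step {R : Type} [CommRing R] [IsDomain R] [Algebra k R]
    (f : Po (N + 1) k →ₐ[k] R) (P : Po (N + 1) k) (F : Tup (N + 1) k)
    (a : Fin N → Po (N + 1) k) (w : Po (N + 1) k) (h : Po N k) (j₀ : Fin N)
    (hη : f (up h) ≠ 0) (hη' : f (aeval F (up h)) ≠ 0)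
    (R1 : f (w * up h) ∣ f (a j₀ * up h - w * up (pderiv j₀ h)))
    (R2 : ∀ i, f (aeval F (w * up h)) ∣ f (aeval F (a i * up h - w * up (pderiv i h))))
    (L : f (aeval F (up h) * up h) ∣
      f (dd P j₀ (aeval F (up h)) * up h - aeval F (up h) * dd P j₀ (up h)))
    (hp : IsUnit (f (pderiv 0 P))) : f (We P F w) ∣ f (Ye P F a w j₀) := by
  rw [dd_aeval_up, dd_up] at L
  unfold We Ye
  simp only [map_mul, map_sub, map_sum] at R1 R2 L ⊢
  exact res_step Finset.univ (W := f w) (W' := f (aeval F w)) (p := f (pderiv 0 P))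
    (η := f (up h)) (η' := f (aeval F (up h))) (α := f (a j₀)) (h₀ := f (up (pderiv j₀ h)))
    (αi := fun i => f (aeval F (a i))) (hi := fun i => f (aeval F (up (pderiv i h))))
    (d := fun i => f (dd P j₀ (F i.succ))) hη hη' R1 R2 L hp

/-- power series points over `q` with bounded poles -/
def Gd (P : Po (N + 1) k) (F : Tup (N + 1) k) (r : ℕ) (q : Po N k) (M : ℕ) : Prop :=
  ∃ (κ : Type) (_ : Field κ) (_ : Algebra k κ) (ψ : Fin r → Po (N + 1) k →ₐ[k] PowerSeries κ),
    Spl P q r ψ ∧ ∀ j,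
    (∀ (i : Fin N) (g : Po N k), ψ j (up g) ∣ PowerSeries.X ^ M * ψ j (up (pderiv i g))) ∧
    (∀ (i : Fin N) (g : Po N k), ψ j (aeval F (up g)) ∣
      PowerSeries.X ^ M * ψ j (aeval F (up (pderiv i g))))

theorem Gd.mono {P : Po (N + 1) k} {F : Tup (N + 1) k} {r : ℕ} {q : Po N k} {M M' : ℕ}
    (h : Gd P F r q M) (hM : M ≤ M') : Gd P F r q M' := by
  obtain ⟨κ, i1, i2, ψ, hs, hj⟩ := h
  refine ⟨κ, i1, i2, ψ, hs, fun j => ⟨fun i g => ((hj j).1 i g).trans ?_, fun i g =>
    ((hj j).2 i g).trans ?_⟩⟩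
  · exact mul_dvd_mul_right (pow_dvd_pow _ hM) _
  · exact mul_dvd_mul_right (pow_dvd_pow _ hM) _

theorem Gd.assoc {P : Po (N + 1) k} {F : Tup (N + 1) k} {r : ℕ} {q q' : Po N k} {M : ℕ}
    (h : Gd P F r q M) (hq : Associated q q') : Gd P F r q' M := by
  obtain ⟨κ, i1, i2, ψ, hs, hj⟩ := h
  exact ⟨κ, i1, i2, ψ, ⟨hs.arc, hs.base, fun j c => (hs.iff j c).trans hq.dvd_iff_dvd_left,
    hs.split⟩, hj⟩

theorem gd_exists [CharZero k] [IsAlgClosed k] (hAB : T_AB) {P : Po (N + 1) k}
    {F : Tup (N + 1) k} {r : ℕ} (hP : Hyp P r)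
    (hPx : ¬ P ∣ pderiv 0 P)
    (hJ : ¬ P ∣ Matrix.det (Matrix.of fun l i : Fin N => dd P l (F i.succ))) (q : Po N k)
    (hq : Irreducible q) : ∃ M, Gd P F r q M := by
  classical
  obtain ⟨κ, i1, i2, ψ, B, hs, hB⟩ := hAB N r k P q hP hq
  have h1 : ∀ j, ∃ n, ψ j (pderiv 0 P) ∣ PowerSeries.X ^ n := fun j =>
    dvd_X_pow fun h0 => hPx ((hs.arc j _).1 h0)
  have h2 : ∀ j, ∃ n, ψ j (Matrix.det (Matrix.of fun l i : Fin N => dd P l (F i.succ))) ∣
      PowerSeries.X ^ n := fun j => dvd_X_pow fun h0 => hJ ((hs.arc j _).1 h0)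
  choose n hn using h1
  choose m hm using h2
  refine ⟨∑ j, (B + n j + m j), κ, i1, i2, ψ, hs, fun j => ?_⟩
  have hle : B + n j + m j ≤ ∑ j, (B + n j + m j) :=
    Finset.single_le_sum (f := fun j => B + n j + m j) (fun _ _ => Nat.zero_le _)
      (Finset.mem_univ j)
  constructor
  · intro i g
    have h3 := hB j i (up g)
    rw [dd_up, map_mul] at h3
    refine (h3.trans ?_)
    rw [← mul_assoc]
    refine mul_dvd_mul_right ?_ _
    refine (mul_dvd_mul_left _ (hn j)).trans ?_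
    rw [← pow_add]
    exact pow_dvd_pow _ (by omega)
  · intro i g
    set J : Matrix (Fin N) (Fin N) (Po (N + 1) k) := Matrix.of fun l i => dd P l (F i.succ)
      with hJd
    have h4 : J.det * aeval F (up (pderiv i g)) =
        ∑ l, J.adjugate i l * dd P l (aeval F (up g)) := by
      have h5 : (J.adjugate * J).mulVec (fun i => aeval F (up (pderiv i g))) =
          J.adjugate.mulVec (fun l => dd P l (aeval F (up g))) := by
        rw [← Matrix.mulVec_mulVec]
        congr 1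
        funext l
        rw [dd_aeval_up]
        show ∑ i, J l i * aeval F (up (pderiv i g)) = _
        refine Finset.sum_congr rfl fun i _ => ?_
        rw [hJd, Matrix.of_apply, mul_comm]
      rw [Matrix.adjugate_mul, Matrix.smul_mulVec, Matrix.one_mulVec] at h5
      have h6 := congrFun h5 i
      exact h6
    have h7 : ψ j (aeval F (up g)) ∣ PowerSeries.X ^ B * (ψ j J.det *
        ψ j (aeval F (up (pderiv i g)))) := by
      rw [← map_mul, h4, map_sum, Finset.mul_sum]
      refine Finset.dvd_sum fun l _ => ?_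
      rw [map_mul]
      refine ((hB j l (aeval F (up g))).mul_left (ψ j (J.adjugate i l))).trans
        (dvd_of_eq ?_)
      ring
    refine h7.trans ?_
    rw [← mul_assoc]
    refine mul_dvd_mul_right ?_ _
    refine (mul_dvd_mul_left _ (hm j)).trans ?_
    rw [← pow_add]
    exact pow_dvd_pow _ (by omega)

theorem gd_uniform [CharZero k] [IsAlgClosed k] (hAB : T_AB) {P : Po (N + 1) k}
    {F : Tup (N + 1) k} {r : ℕ} (hP : Hyp P r)
    (hPx : ¬ P ∣ pderiv 0 P)
    (hJ : ¬ P ∣ Matrix.det (Matrix.of fun l i : Fin N => dd P l (F i.succ))) (g₀ : Po N k)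
    (hg₀ : g₀ ≠ 0) : ∃ M, ∀ q : Po N k, Irreducible q → q ∣ g₀ → Gd P F r q M := by
  classical
  have h1 : ∀ q : Po N k, ∃ M, Irreducible q → Gd P F r q M := by
    intro q
    by_cases hq : Irreducible q
    · obtain ⟨M, hM⟩ := gd_exists hAB hP hPx hJ q hq
      exact ⟨M, fun _ => hM⟩
    · exact ⟨0, fun h => absurd h hq⟩
  choose M hM using h1
  refine ⟨∑ q ∈ (UniqueFactorizationMonoid.factors g₀).toFinset, M q, fun q hq hd => ?_⟩
  obtain ⟨q', hq', hqq⟩ := UniqueFactorizationMonoid.exists_mem_factors_of_dvd hg₀ hq hd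
  have h2 : Irreducible q' := hqq.irreducible hq
  refine ((hM q' h2).mono ?_).assoc hqq.symm
  exact Finset.single_le_sum (f := M) (fun _ _ => Nat.zero_le _) (Multiset.mem_toFinset.2 hq')

end

theorem pf_ETA (hSPX : T_SPX) (hAG : T_AG) (hAB : T_AB) (hINT : T_INT) (hUNR : T_UNR)
    (hTI2 : T_TI2) (hJDT : T_JDT) : T_ETA := by
  classical
  intro N r e k _ _ _ P F θ Δ hP hF hB
  obtain ⟨ρ, A, B, hρ0, hρ⟩ := hSPX N r k P hP
  obtain ⟨g1, hg1, hTI⟩ := hTI2 N r e k P F θ Δ hP hF hB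
  have hPp : Prime P := hP.irr.prime
  have hPx : ¬ P ∣ pderiv 0 P := by
    intro h0
    apply Pool.Agent.H49.VZ.not_dvd_up hP hρ0
    rw [hρ]
    exact dvd_add (dvd_mul_left _ _) (h0.mul_left _)
  have hJ := hJDT N k P F hP.irr hP.mon hF
  have hg0 : ρ * g1 ≠ 0 := mul_ne_zero hρ0 hg1
  obtain ⟨M, hM⟩ := gd_uniform hAB hP hPx hJ (ρ * g1) hg0
  have hinj : ∀ c, P ∣ aeval F c → P ∣ c := fun c hc =>
    Ideal.mem_span_singleton.1 (hF.inj c (Ideal.mem_span_singleton.2 hc))
  have hinv : ∀ c, P ∣ c → P ∣ aeval F c := fun c hc =>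
    Ideal.mem_span_singleton.1 (hF.inv c (Ideal.mem_span_singleton.2 hc))
  have hupm : ∀ c c' : Po N k, up (c * c') = up c * up c' := fun c c' => map_mul _ _ _
  refine ⟨ρ * g1, pderiv 0 P * (pderiv 0 P * aeval F (pderiv 0 P) * up (ρ * g1) ^ M), hg0, ?_,
    ?_⟩
  · intro h0
    rcases hPp.dvd_or_dvd h0 with h1 | h1
    · exact hPx h1
    rcases hPp.dvd_or_dvd h1 with h1 | h1
    · rcases hPp.dvd_or_dvd h1 with h1 | h1
      · exact hPx h1
      · exact hPx (hinj _ h1)
    · exact Pool.Agent.H49.VZ.not_dvd_up hP hg0 (hPp.dvd_of_dvd_pow h1)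
  intro H h a w m hH hT hgH hL j0
  have := hH.prime
  have hρH : up ρ ∉ H := by
    intro h0
    apply hgH
    rw [hupm]
    exact H.mul_mem_right _ h0
  have hPxH : pderiv 0 P ∉ H := by
    intro h0
    apply hρH
    rw [hρ]
    exact H.add_mem (H.mul_mem_left _ hH.mem) (H.mul_mem_left _ h0)
  have hWe : ¬ P ∣ We P F w := by
    intro h0
    unfold We at h0
    rcases hPp.dvd_or_dvd h0 with h1 | h1
    · rcases hPp.dvd_or_dvd h1 with h1 | h1
      · exact hL.ne (hinj _ h1)
      · exact hL.ne h1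
    · exact hPx h1
  have harc : ∀ (κ : Type) [Field κ] [Algebra k κ] (ψ : Po (N + 1) k →ₐ[k] PowerSeries κ),
      Arc P ψ → Arc P (cpa ψ F) := by
    intro κ _ _ ψ hψ c
    show ψ (aeval F c) = 0 ↔ _
    rw [hψ]
    exact ⟨hinj c, hinv c⟩
  obtain ⟨v, hv⟩ := hINT N r k P
    (pderiv 0 P * aeval F (pderiv 0 P) * up (ρ * g1) ^ M * Ye P F a w j0) (We P F w) hP hWe (by
    intro q hq
    by_cases hqg : q ∣ ρ * g1
    · obtain ⟨κ, i1, i2, ψ, hs, hj⟩ := hM q hq hqg
      refine ⟨κ, i1, i2, ψ, hs, fun j => ?_⟩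
      have hZ : (PowerSeries.X : PowerSeries κ) ^ M ∣ ψ j (up (ρ * g1)) ^ M := by
        refine pow_dvd_pow_of_dvd ?_ M
        rw [PowerSeries.X_dvd_iff]
        exact (hs.iff j _).2 hqg
      exact fin_step (ψ j) P F a w (up (ρ * g1)) M (PowerSeries.X ^ M)
        (hL.bnd κ (ψ j) (hs.arc j) M (hj j).1)
        (hL.bnd κ (cpa (ψ j) F) (harc κ _ (hs.arc j)) M (hj j).2) hZ j0
    · have hqρ : ¬ q ∣ ρ := fun h0 => hqg (h0.mul_right _)
      have hq1 : ¬ q ∣ g1 := fun h0 => hqg (h0.mul_left _)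
      obtain ⟨κ, i1, i2, ψ, hs, hX2, hlog, -⟩ := hAG N r k P q ρ A B hP hq hρ hqρ
      refine ⟨κ, i1, i2, ψ, hs, fun j => ?_⟩
      have hPxu : IsUnit (ψ j (pderiv 0 P)) := by
        rw [PowerSeries.isUnit_iff_constantCoeff, isUnit_iff_ne_zero]
        intro h0
        apply hqρ
        rw [← hs.iff j ρ]
        unfold rd
        rw [hρ, map_add, map_mul, map_mul, (hs.arc j P).2 dvd_rfl, mul_zero, zero_add, map_mul,
          h0, mul_zero]
      set E : Ideal (Po (N + 1) k) := RingHom.ker ((PowerSeries.constantCoeff (R := κ)).comp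
        ((ψ j : Po (N + 1) k →ₐ[k] PowerSeries κ) : Po (N + 1) k →+* PowerSeries κ)) with hE
      have hEm : ∀ c, c ∈ E ↔ rd (ψ j) c = 0 := fun c => RingHom.mem_ker
      have hPE : Pdv P E q := by
        refine ⟨RingHom.ker_isPrime _, ?_, hq, fun c => (hEm _).trans (hs.iff j c)⟩
        rw [hEm]
        unfold rd
        rw [(hs.arc j P).2 dvd_rfl, map_zero]
      by_cases hEH : E = H
      · -- the pole along `H`
        have hrd : ∀ c, rd (ψ j) c = 0 ↔ c ∈ H := fun c => by rw [← hEH]; exact (hEm c).symm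
        have ha : ∀ c, aeval F c ∈ H → c ∈ H := by
          intro c hc
          have h1 := hT.ind (fun i => if (i : ℕ) = 0 then c else 0) (by
            have h2 : (∑ i : Fin e, θ ^ (i : ℕ) * aeval F (if (i : ℕ) = 0 then c else 0)) =
                aeval F c := by
              rw [Finset.sum_eq_single (⟨0, hB.pos⟩ : Fin e)]
              · simp
              · intro b _ hb
                have hb' : (b : ℕ) ≠ 0 := fun h0 => hb (Fin.ext h0)
                simp [hb']
              · intro h0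
                exact absurd (Finset.mem_univ _) h0
            rw [h2]
            exact hc) ⟨0, hB.pos⟩
          simpa using h1
        have hrd' : ∀ c, rd (cpa (ψ j) F) c = 0 ↔ c ∈ H := by
          intro c
          show rd (ψ j) (aeval F c) = 0 ↔ _
          rw [hrd]
          exact ⟨ha c, hT.inv c⟩
        have hhq : h ∣ q := by
          rw [← hH.iff, ← hEH, hPE.iff]
        have hXh : ¬ PowerSeries.X ^ 2 ∣ ψ j (up h) := by
          intro h0
          apply hX2 j
          obtain ⟨c, hc⟩ := hhq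
          rw [hc, hupm, map_mul]
          exact h0.mul_right _
        have hU := hUNR N r e k κ P F θ Δ H h (ψ j) hP hF hB hH hT hPxH (hs.arc j) hrd hXh
        have h1 := hL.res κ (ψ j) (hs.arc j) hrd (fun h0 => hPxH ((hrd _).1 h0)) j0
        have h2 := hL.res κ (cpa (ψ j) F) (harc κ _ (hs.arc j)) hrd'
          (fun h0 => hPxH ((hrd' _).1 h0))
        have h3 := hlog j j0 (aeval F (up h)) (up h) hU
        have hη : ψ j (up h) ≠ 0 := fun h0 => hXh (h0 ▸ dvd_zero _)
        have hη' : ψ j (aeval F (up h)) ≠ 0 := by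
          intro h0
          apply hη
          rw [(hs.arc j _)] at h0 ⊢
          exact hinj _ h0
        have h5 : ψ j (We P F w) ∣ ψ j (Ye P F a w j0) :=
          a1_step (ψ j) P F a w h j0 hη hη' h1 h2 h3 hPxu
        rw [map_mul]
        exact h5.mul_left _
      · -- no pole
        have hex2 : ∃ c ∈ H, rd (cpa (ψ j) F) c ≠ 0 := by
          by_contra hcon
          push Not at hcon
          apply hEH
          exact hTI E q hPE hq1 H h hH hT hPxH fun c hc => (hEm _).2 (hcon c hc)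
        have hex1 : ∃ c ∈ H, rd (ψ j) c ≠ 0 := by
          obtain ⟨c, hc, hc'⟩ := hex2
          exact ⟨aeval F c, hT.inv c hc, hc'⟩
        refine fin_step (ψ j) P F a w (up (ρ * g1)) M 1 (fun i => ?_) (fun i => ?_)
          (one_dvd _) j0
        · rw [one_mul]
          exact hL.reg κ (ψ j) (hs.arc j) hex1 i
        · rw [one_mul]
          exact hL.reg κ (cpa (ψ j) F) (harc κ _ (hs.arc j)) hex2 i)
  refine ⟨v, ?_⟩
  have e1 : pderiv 0 P * (pderiv 0 P * aeval F (pderiv 0 P) * up (ρ * g1) ^ M) * Ye P F a w j0 -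
      We P F w * v = pderiv 0 P * (pderiv 0 P * aeval F (pderiv 0 P) * up (ρ * g1) ^ M *
        Ye P F a w j0) - We P F w * v := by ring
  rw [e1]
  exact hv

end Pool.Agent.H15.VZ
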