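import Pool.Agent.H18.VZ.Targets

/-!
# A totally invariant hypersurface is not in the ramification (row UNR of `vz_modules`)
-/

open MvPolynomial
open Pool.Agent.H12.ZD (pmap)
open Pool.Agent.H18.HIT Pool.Agent.H18.HX Pool.Agent.H18.VZ

namespace Pool.Agent.H15.VZ

theorem pf_UNR (hDVR : T_DVR) (hDVS : T_DVS) : T_UNR := by
  intro N r e k κ _ _ _ _ _ P F θ Δ H h ψ hP hF hB hH hT hp hA hrd hX2
  classical
  have hPp : Prime P := hP.irr.prime
  haveI := hH.prime
  -- divisibility by `P` is preserved by `F`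
  have hinv : ∀ c, P ∣ c → P ∣ aeval F c := fun c hc =>
    Ideal.mem_span_singleton.1 (hF.inv c (Ideal.mem_span_singleton.2 hc))
  have hinj : ∀ c, P ∣ aeval F c → P ∣ c := fun c hc =>
    Ideal.mem_span_singleton.1 (hF.inj c (Ideal.mem_span_singleton.2 hc))
  have hPH : ∀ c, P ∣ c → c ∈ H := fun c hc => H.mem_of_dvd hc hH.mem
  have hψ0 : ψ (up h) ≠ 0 := fun h0 => hX2 (h0 ▸ dvd_zero _)
  have hPh : ¬ P ∣ up h := fun hd => hψ0 ((hA _).2 hd)
  have hPFh : ¬ P ∣ aeval F (up h) := fun hd => hPh (hinj _ hd)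
  -- (a)
  have ha : ∀ c, aeval F c ∈ H → c ∈ H := by
    intro c hc
    have h1 := hT.ind (fun i => if (i : ℕ) = 0 then c else 0) (by
      have h2 : (∑ i : Fin e, θ ^ (i : ℕ) * aeval F (if (i : ℕ) = 0 then c else 0)) =
          aeval F c := by
        rw [Finset.sum_eq_single (⟨0, hB.pos⟩ : Fin e)]
        · simp
        · intro b _ hb
          have hb' : (b : ℕ) ≠ 0 := fun h0 => hb (Fin.ext h0)
          simp [hb']
        · intro h0
          exact absurd (Finset.mem_univ _) h0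
      rw [h2]
      exact hc) ⟨0, hB.pos⟩
    simpa using h1
  -- (b)
  obtain ⟨M, c, hc⟩ := hB.gen (up h)
  obtain ⟨μ, s, c', hs, hc', i₀, hi₀⟩ := hDVS N r (e + 1) k P H h
    (Fin.snoc (α := fun _ => Po (N + 1) k) c (Δ ^ M)) hP hH hp
    ⟨Fin.last e, by
      rw [Fin.snoc_last]
      exact fun hd => hB.ne (hPp.dvd_of_dvd_pow hd)⟩
  have hFc : ∀ i : Fin e, P ∣ aeval F s * aeval F (c i) -
      aeval F (up h) ^ μ * aeval F (c' i.castSucc) := by
    intro i
    have h1 := hinv _ (hc' i.castSucc)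
    rw [Fin.snoc_castSucc] at h1
    simpa only [map_sub, map_mul, map_pow] using h1
  have hFD : P ∣ aeval F s * aeval F Δ ^ M - aeval F (up h) ^ μ * aeval F (c' (Fin.last e)) := by
    have h1 := hinv _ (hc' (Fin.last e))
    rw [Fin.snoc_last] at h1
    simpa only [map_sub, map_mul, map_pow] using h1
  have hrel : P ∣ aeval F (c' (Fin.last e)) * up h -
      ∑ i : Fin e, θ ^ (i : ℕ) * aeval F (c' i.castSucc) := by
    have h1 : P ∣ aeval F (up h) ^ μ * (aeval F (c' (Fin.last e)) * up h -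
        ∑ i : Fin e, θ ^ (i : ℕ) * aeval F (c' i.castSucc)) := by
      have h2 : aeval F (up h) ^ μ * (aeval F (c' (Fin.last e)) * up h -
          ∑ i : Fin e, θ ^ (i : ℕ) * aeval F (c' i.castSucc)) =
          aeval F s * (aeval F Δ ^ M * up h - ∑ i : Fin e, θ ^ (i : ℕ) * aeval F (c i)) -
          (aeval F s * aeval F Δ ^ M - aeval F (up h) ^ μ * aeval F (c' (Fin.last e))) * up h +
          ∑ i : Fin e, θ ^ (i : ℕ) * (aeval F s * aeval F (c i) -
            aeval F (up h) ^ μ * aeval F (c' i.castSucc)) := by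
        simp only [mul_sub, Finset.sum_sub_distrib, Finset.mul_sum]
        have h3 : ∑ i : Fin e, θ ^ (i : ℕ) * (aeval F s * aeval F (c i)) =
            ∑ i : Fin e, aeval F s * (θ ^ (i : ℕ) * aeval F (c i)) :=
          Finset.sum_congr rfl fun i _ => by ring
        have h4 : ∑ i : Fin e, θ ^ (i : ℕ) * (aeval F (up h) ^ μ * aeval F (c' i.castSucc)) =
            ∑ i : Fin e, aeval F (up h) ^ μ * (θ ^ (i : ℕ) * aeval F (c' i.castSucc)) :=
          Finset.sum_congr rfl fun i _ => by ring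
        rw [h3, h4]
        ring
      rw [h2]
      refine dvd_add (dvd_sub (hc.mul_left _) (hFD.mul_right _)) ?_
      exact Finset.dvd_sum fun i _ => (hFc i).mul_left _
    rcases hPp.dvd_or_dvd h1 with h2 | h2
    · exact absurd (hPp.dvd_of_dvd_pow h2) hPFh
    · exact h2
  -- (c)
  have huph : up h ∈ H := (hH.iff h).2 dvd_rfl
  have hsum : (∑ i : Fin e, θ ^ (i : ℕ) * aeval F (c' i.castSucc)) ∈ H := by
    have h1 := hPH _ hrel
    have h2 : aeval F (c' (Fin.last e)) * up h ∈ H := H.mul_mem_left _ huph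
    have h3 := H.sub_mem h2 h1
    rwa [sub_sub_cancel] at h3
  have hci : ∀ i : Fin e, c' i.castSucc ∈ H := hT.ind _ hsum
  have hD : c' (Fin.last e) ∉ H := by
    intro hd
    apply hi₀
    refine Fin.lastCases ?_ (fun i => ?_) i₀
    · exact hd
    · exact hci i
  -- (d)
  have hunit : ∀ c, c ∉ H → IsUnit (ψ (aeval F c)) := by
    intro c hc
    rw [PowerSeries.isUnit_iff_constantCoeff, isUnit_iff_ne_zero]
    intro h0
    exact hc (ha c ((hrd _).1 h0))
  have hdiv : ∀ i : Fin e, ψ (aeval F (up h)) ∣ ψ (aeval F (c' i.castSucc)) := by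
    intro i
    obtain ⟨s', c'', hs', hd⟩ := hDVR N r k P H h hP hH hp _ (hci i)
    have h1 := (hA _).2 (hinv _ hd)
    simp only [map_sub, map_mul] at h1
    have h2 : ψ (aeval F s') * ψ (aeval F (c' i.castSucc)) =
        ψ (aeval F (up h)) * ψ (aeval F c'') := sub_eq_zero.1 h1
    exact (hunit s' hs').dvd_mul_left.1 (h2 ▸ dvd_mul_right _ _)
  have hdvd : ψ (aeval F (up h)) ∣ ψ (up h) := by
    have h1 := (hA _).2 hrel
    simp only [map_sub, map_mul, map_sum, map_pow] at h1
    have h2 := sub_eq_zero.1 h1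
    have h3 : ψ (aeval F (up h)) ∣ ψ (aeval F (c' (Fin.last e))) * ψ (up h) := by
      rw [h2]
      exact Finset.dvd_sum fun i _ => (hdiv i).mul_left _
    exact (hunit _ hD).dvd_mul_left.1 h3
  -- (e)
  obtain ⟨z, hz⟩ := hdvd
  have hX : PowerSeries.X ∣ ψ (aeval F (up h)) := by
    rw [PowerSeries.X_dvd_iff]
    exact (hrd _).2 (hT.inv _ huph)
  have hzu : IsUnit z := by
    by_contra hz0
    apply hX2
    have h1 : PowerSeries.X ∣ z := by
      rw [PowerSeries.X_dvd_iff]
      by_contra h2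
      exact hz0 (by rw [PowerSeries.isUnit_iff_constantCoeff, isUnit_iff_ne_zero]; exact h2)
    rw [hz, pow_two]
    exact mul_dvd_mul hX h1
  obtain ⟨u, hu⟩ := hzu
  exact ⟨u, by rw [hu, hz]⟩

end Pool.Agent.H15.VZ
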